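import Pool.Agent.TH685.TI.Thin2

set_option autoImplicit false
set_option maxHeartbeats 1000000

/-! # Representations `n = k + m` with `p_k² - 2`, `p_m² - 2`, `p_{p_m}² - 2` prime: both summands are large -/

namespace Pool.Agent.Results.MP_04ff0f_nt.BothSummandsLarge

open Finset Pool.Agent.TH685.Gen

/-- the `j`-th prime: `p 1 = 2`, `p 2 = 3`, ... -/
noncomputable def p (j : ℕ) : ℕ := Nat.nth Nat.Prime (j - 1)

/-- **Theorem.** For every `ε > 0` there is `c > 0` such that for all large `X`, all but at most `ε X` of the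
integers `n ≤ X` have the following property: if `n = k + m` with `k, m ≥ 1` and `p_k² - 2`, `p_m² - 2`,
`p_{p_m}² - 2` prime then

* more than `c log X` indices `j < k` have `p_j² - 2` prime, and `k > c log X log log X`;
* more than `c log X` indices `j < m` have `p_j² - 2` and `p_{p_j}² - 2` prime, and
  `m > c log X log log X`. -/
theorem result (ε : ℝ) (hε : 0 < ε) : ∃ c : ℝ, 0 < c ∧ ∃ X₀ : ℕ, ∀ X : ℕ, X₀ ≤ X →
    ∃ B : Finset ℕ, (B.card : ℝ) ≤ ε * X ∧ ∀ n : ℕ, n ≤ X → n ∉ B →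
      ∀ k m : ℕ, 1 ≤ k → 1 ≤ m → k + m = n →
        (p k ^ 2 - 2).Prime → (p m ^ 2 - 2).Prime → (p (p m) ^ 2 - 2).Prime →
        (c * Real.log X < Set.ncard {j : ℕ | 1 ≤ j ∧ j < k ∧ (p j ^ 2 - 2).Prime} ∧
          c * (Real.log X * Real.log (Real.log X)) < k) ∧
        (c * Real.log X < Set.ncard {j : ℕ | 1 ≤ j ∧ j < m ∧ (p j ^ 2 - 2).Prime ∧
            (p (p j) ^ 2 - 2).Prime} ∧
          c * (Real.log X * Real.log (Real.log X)) < m) := by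
  obtain ⟨T, hT⟩ : ∃ T : ℕ → Prop, T = fun j => GSq (Nat.nth Nat.Prime (j - 1)) := ⟨_, rfl⟩
  have hTF : Few T := by
    rw [hT]
    exact few_GSq
  obtain ⟨c₀, hc₀, X₁, hcov⟩ := cover T hTF (ε / 2) (by positivity)
  obtain ⟨c₁, hc₁, X₂, hbig⟩ := big GSq thin_GSq c₀ hc₀
  rw [← hT] at hbig
  obtain ⟨U, hU⟩ : ∃ U : ℕ → Prop, ∀ j, U j ↔ (GSq (p j) ∧ GSq (p (p j))) :=
    ⟨fun j => GSq (p j) ∧ GSq (p (p j)), fun _ => Iff.rfl⟩
  have hTj : ∀ j, T j ↔ (p j ^ 2 - 2).Prime := by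
    intro j
    rw [hT, p]
    exact GSq_iff _
  have hUj : ∀ j, U j ↔ ((p j ^ 2 - 2).Prime ∧ (p (p j) ^ 2 - 2).Prime) := by
    intro j
    rw [hU, GSq_iff, GSq_iff]
  obtain ⟨X₃, hX₃⟩ : ∃ X₃ : ℕ, ∀ X : ℕ, X₃ ≤ X → 0 ≤ Real.log X ∧ 0 ≤ Real.log (Real.log X) := by
    refine ⟨⌈Real.exp 1⌉₊, fun X hX => ?_⟩
    have h1 : Real.exp 1 ≤ X := Nat.ceil_le.1 hX
    have h2 := Real.log_le_log (Real.exp_pos _) h1
    rw [Real.log_exp] at h2
    exact ⟨by linarith, Real.log_nonneg h2⟩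
  refine ⟨min c₀ c₁, lt_min hc₀ hc₁, max X₁ (max X₂ X₃), fun X hX => ?_⟩
  have hX1 : X₁ ≤ X := (le_max_left _ _).trans hX
  have hX2 : X₂ ≤ X := (le_max_left _ _).trans ((le_max_right _ _).trans hX)
  obtain ⟨hL, hLL⟩ := hX₃ X ((le_max_right _ _).trans ((le_max_right _ _).trans hX))
  obtain ⟨B₁, hB₁, hn₁⟩ := hcov X hX1 T
  obtain ⟨B₂, hB₂, hn₂⟩ := hcov X hX1 U
  refine ⟨B₁ ∪ B₂, ?_, ?_⟩
  · have h1 : ((B₁ ∪ B₂).card : ℝ) ≤ B₁.card + B₂.card := by exact_mod_cast card_union_le _ _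
    linarith
  · intro n hn hnB k m hk hm hkm h1 h2 h3
    rw [mem_union, not_or] at hnB
    have h4 := hn₁ n hn hnB.1 m k hm hk (by omega) ((hTj m).2 h2) ((hTj k).2 h1)
    have h5 := hn₂ n hn hnB.2 k m hk hm hkm ((hTj k).2 h1) ((hUj m).2 ⟨h2, h3⟩)
    have h6 := hbig X hX2 k hk h4
    have h7 : c₀ * Real.log X < cn T m := by
      refine lt_of_lt_of_le h5 ?_
      exact_mod_cast cn_mono (fun j hj => (hTj j).2 ((hUj j).1 hj).1) m
    have h8 := hbig X hX2 m hm h7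
    have h9 : min c₀ c₁ * Real.log X ≤ c₀ * Real.log X :=
      mul_le_mul_of_nonneg_right (min_le_left _ _) hL
    have h10 : min c₀ c₁ * (Real.log X * Real.log (Real.log X)) ≤
        c₁ * (Real.log X * Real.log (Real.log X)) :=
      mul_le_mul_of_nonneg_right (min_le_right _ _) (mul_nonneg hL hLL)
    have e1 : cn T k = Set.ncard {j : ℕ | 1 ≤ j ∧ j < k ∧ (p j ^ 2 - 2).Prime} := by
      unfold cn
      congr 1
      ext j
      rw [Set.mem_setOf_eq, Set.mem_setOf_eq, hTj]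
    have e2 : cn U m = Set.ncard {j : ℕ | 1 ≤ j ∧ j < m ∧ (p j ^ 2 - 2).Prime ∧
        (p (p j) ^ 2 - 2).Prime} := by
      unfold cn
      congr 1
      ext j
      rw [Set.mem_setOf_eq, Set.mem_setOf_eq, hUj]
    rw [← e1, ← e2]
    exact ⟨⟨lt_of_le_of_lt h9 h4, lt_of_le_of_lt h10 h6⟩, ⟨lt_of_le_of_lt h9 h5,
      lt_of_le_of_lt h10 h8⟩⟩

end Pool.Agent.Results.MP_04ff0f_nt.BothSummandsLarge
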